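import Pool.Agent.H61.SC.Defs

/-!
# Basic lemmas on `ex`, `gr`, `va`
-/

set_option linter.unusedSectionVars false

namespace Pool.SC

open Finset

section
variable {α : Type*} [DecidableEq α] {p : ℝ} {F : Finset α} {f g : Finset α → ℝ}

theorem ex_congr (h : ∀ s ⊆ F, f s = g s) : ex p F f = ex p F g := by
  unfold ex
  refine Finset.sum_congr rfl fun s hs => ?_
  rw [h s (Finset.mem_powerset.1 hs)]

theorem ex_empty (p : ℝ) (f : Finset α → ℝ) : ex p ∅ f = f ∅ := by
  simp [ex]

/-- one more coordinate -/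
theorem ex_insert {e : α} (he : e ∉ F) (p : ℝ) (f : Finset α → ℝ) :
    ex p (insert e F) f = (1 - p) * ex p F f + p * ex p F (fun s => f (insert e s)) := by
  unfold ex
  rw [Finset.sum_powerset_insert he, Finset.mul_sum, Finset.mul_sum]
  congr 1
  · refine Finset.sum_congr rfl fun s hs => ?_
    have hs' := Finset.card_le_card (Finset.mem_powerset.1 hs)
    rw [Finset.card_insert_of_notMem he]
    have : F.card + 1 - s.card = (F.card - s.card) + 1 := by omega
    rw [this, pow_succ]
    ring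
  · refine Finset.sum_congr rfl fun s hs => ?_
    have hes : e ∉ s := fun h => he (Finset.mem_powerset.1 hs h)
    rw [Finset.card_insert_of_notMem he, Finset.card_insert_of_notMem hes]
    have : F.card + 1 - (s.card + 1) = F.card - s.card := by omega
    rw [this, pow_succ]
    ring

theorem ex_add (p : ℝ) (F : Finset α) (f g : Finset α → ℝ) :
    ex p F (fun s => f s + g s) = ex p F f + ex p F g := by
  unfold ex
  rw [← Finset.sum_add_distrib]
  exact Finset.sum_congr rfl fun s _ => by ring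

theorem ex_sub (p : ℝ) (F : Finset α) (f g : Finset α → ℝ) :
    ex p F (fun s => f s - g s) = ex p F f - ex p F g := by
  unfold ex
  rw [← Finset.sum_sub_distrib]
  exact Finset.sum_congr rfl fun s _ => by ring

theorem ex_neg (p : ℝ) (F : Finset α) (f : Finset α → ℝ) :
    ex p F (fun s => - f s) = - ex p F f := by
  unfold ex
  rw [← Finset.sum_neg_distrib]
  exact Finset.sum_congr rfl fun s _ => by ring

theorem ex_mul_left (p : ℝ) (F : Finset α) (c : ℝ) (f : Finset α → ℝ) :
    ex p F (fun s => c * f s) = c * ex p F f := by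
  unfold ex
  rw [Finset.mul_sum]
  exact Finset.sum_congr rfl fun s _ => by ring

theorem ex_mul_right (p : ℝ) (F : Finset α) (c : ℝ) (f : Finset α → ℝ) :
    ex p F (fun s => f s * c) = ex p F f * c := by
  unfold ex
  rw [Finset.sum_mul]
  exact Finset.sum_congr rfl fun s _ => by ring

theorem ex_div (p : ℝ) (F : Finset α) (c : ℝ) (f : Finset α → ℝ) :
    ex p F (fun s => f s / c) = ex p F f / c := by
  unfold ex
  rw [Finset.sum_div]
  exact Finset.sum_congr rfl fun s _ => by ring

theorem ex_const (p : ℝ) (F : Finset α) (c : ℝ) : ex p F (fun _ => c) = c := by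
  induction F using Finset.induction_on with
  | empty => exact ex_empty _ _
  | insert e F he ih => rw [ex_insert he, ih]; ring

theorem ex_finsum {ι : Type*} (p : ℝ) (F : Finset α) (I : Finset ι) (f : ι → Finset α → ℝ) :
    ex p F (fun s => ∑ i ∈ I, f i s) = ∑ i ∈ I, ex p F (f i) := by
  unfold ex
  rw [Finset.sum_comm]
  exact Finset.sum_congr rfl fun s _ => by rw [Finset.mul_sum]

theorem ex_mono (hp0 : 0 ≤ p) (hp1 : p ≤ 1) (h : ∀ s ⊆ F, f s ≤ g s) :
    ex p F f ≤ ex p F g := by
  unfold ex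
  refine Finset.sum_le_sum fun s hs => ?_
  exact mul_le_mul_of_nonneg_left (h s (Finset.mem_powerset.1 hs))
    (mul_nonneg (pow_nonneg hp0 _) (pow_nonneg (by linarith) _))

theorem ex_nonneg (hp0 : 0 ≤ p) (hp1 : p ≤ 1) (h : ∀ s ⊆ F, 0 ≤ f s) : 0 ≤ ex p F f := by
  have := ex_mono (f := fun _ => (0 : ℝ)) (g := f) hp0 hp1 h
  rwa [ex_const] at this

theorem ex_le_const (hp0 : 0 ≤ p) (hp1 : p ≤ 1) {c : ℝ} (h : ∀ s ⊆ F, f s ≤ c) :
    ex p F f ≤ c := by
  have := ex_mono (f := f) (g := fun _ => c) hp0 hp1 h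
  rwa [ex_const] at this

theorem const_le_ex (hp0 : 0 ≤ p) (hp1 : p ≤ 1) {c : ℝ} (h : ∀ s ⊆ F, c ≤ f s) :
    c ≤ ex p F f := by
  have := ex_mono (f := fun _ => c) (g := f) hp0 hp1 h
  rwa [ex_const] at this

theorem abs_ex_le (hp0 : 0 ≤ p) (hp1 : p ≤ 1) (f : Finset α → ℝ) :
    |ex p F f| ≤ ex p F (fun s => |f s|) := by
  rw [abs_le]
  constructor
  · rw [← ex_neg]
    exact ex_mono hp0 hp1 fun s _ => neg_abs_le _
  · exact ex_mono hp0 hp1 fun s _ => le_abs_self _

/-- Cauchy-Schwarz -/
theorem ex_cs (hp0 : 0 ≤ p) (hp1 : p ≤ 1) (f g : Finset α → ℝ) :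
    (ex p F (fun s => f s * g s)) ^ 2
      ≤ ex p F (fun s => f s ^ 2) * ex p F (fun s => g s ^ 2) := by
  have hw : ∀ s : Finset α, 0 ≤ p ^ s.card * (1 - p) ^ (F.card - s.card) := fun s =>
    mul_nonneg (pow_nonneg hp0 _) (pow_nonneg (by linarith) _)
  have := Finset.sum_mul_sq_le_sq_mul_sq F.powerset
    (fun s => Real.sqrt (p ^ s.card * (1 - p) ^ (F.card - s.card)) * f s)
    (fun s => Real.sqrt (p ^ s.card * (1 - p) ^ (F.card - s.card)) * g s)
  unfold ex
  have e1 : ∀ s : Finset α, Real.sqrt (p ^ s.card * (1 - p) ^ (F.card - s.card)) * f s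
      * (Real.sqrt (p ^ s.card * (1 - p) ^ (F.card - s.card)) * g s)
      = p ^ s.card * (1 - p) ^ (F.card - s.card) * (f s * g s) := by
    intro s
    have := Real.mul_self_sqrt (hw s)
    calc _ = (Real.sqrt (p ^ s.card * (1 - p) ^ (F.card - s.card))
          * Real.sqrt (p ^ s.card * (1 - p) ^ (F.card - s.card))) * (f s * g s) := by ring
      _ = _ := by rw [this]
  have e2 : ∀ (k : Finset α → ℝ) (s : Finset α),
      (Real.sqrt (p ^ s.card * (1 - p) ^ (F.card - s.card)) * k s) ^ 2
      = p ^ s.card * (1 - p) ^ (F.card - s.card) * k s ^ 2 := by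
    intro k s
    rw [mul_pow, Real.sq_sqrt (hw s)]
  simp only [e1, e2] at this
  exact this

theorem sq_ex_le (hp0 : 0 ≤ p) (hp1 : p ≤ 1) (f : Finset α → ℝ) :
    (ex p F f) ^ 2 ≤ ex p F (fun s => f s ^ 2) := by
  have := ex_cs (F := F) hp0 hp1 f (fun _ => (1 : ℝ))
  simp only [mul_one, one_pow, ex_const] at this
  exact this

/-- two blocks of coordinates -/
theorem ex_union (p : ℝ) (F G : Finset α) (h : Disjoint F G) (f : Finset α → ℝ) :
    ex p (F ∪ G) f = ex p F (fun s => ex p G (fun t => f (s ∪ t))) := by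
  induction G using Finset.induction_on generalizing f with
  | empty => simp [ex_empty]
  | insert e G he ih =>
    have hF : e ∉ F := fun h' => (Finset.disjoint_left.1 h h') (Finset.mem_insert_self _ _)
    have hd' : Disjoint F G := h.mono_right (Finset.subset_insert _ _)
    have heu : e ∉ F ∪ G := by simp [hF, he]
    rw [Finset.union_insert, ex_insert heu, ih hd', ih hd', ← ex_mul_left, ← ex_mul_left,
      ← ex_add]
    refine ex_congr fun s _ => ?_
    rw [ex_insert he]
    simp only [Finset.union_insert]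

/-- a function of the coordinates in `F'` only -/
theorem ex_restrict {F' : Finset α} (hF : F' ⊆ F) (hf : ∀ s ⊆ F, f (s ∩ F') = f s) :
    ex p F f = ex p F' f := by
  have hu : F = F' ∪ (F \ F') := by rw [Finset.union_sdiff_of_subset hF]
  rw [hu, ex_union p F' (F \ F') Finset.disjoint_sdiff]
  refine ex_congr fun s hs => ?_
  have : ex p (F \ F') (fun t => f (s ∪ t)) = ex p (F \ F') (fun _ => f s) := by
    refine ex_congr fun t ht => ?_
    have h1 : s ∪ t ⊆ F := Finset.union_subset (hs.trans hF) (ht.trans Finset.sdiff_subset)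
    rw [← hf (s ∪ t) h1, ← hf s (hs.trans hF)]
    congr 1
    ext x
    simp only [Finset.mem_inter, Finset.mem_union]
    constructor
    · rintro ⟨h2 | h2, h3⟩
      · exact ⟨h2, h3⟩
      · exact absurd h3 (Finset.mem_sdiff.1 (ht h2)).2
    · rintro ⟨h2, h3⟩
      exact ⟨Or.inl h2, h3⟩
  rw [this, ex_const]

/-- `e` absent: conditioning -/
theorem ex_erase {e : α} (he : e ∈ F) (p : ℝ) (g : Finset α → ℝ) :
    ex p F (fun s => if e ∈ s then 0 else g s) = (1 - p) * ex p F (fun s => g (s.erase e)) := by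
  obtain ⟨G, hG, rfl⟩ : ∃ G : Finset α, e ∉ G ∧ F = insert e G :=
    ⟨F.erase e, Finset.notMem_erase _ _, (Finset.insert_erase he).symm⟩
  rw [ex_insert hG, ex_insert hG]
  have h1 : ex p G (fun s => if e ∈ s then 0 else g s) = ex p G g := by
    refine ex_congr fun s hs => ?_
    rw [if_neg fun h => hG (hs h)]
  have h2 : ex p G (fun s => if e ∈ insert e s then 0 else g (insert e s)) = 0 := by
    have : ex p G (fun s => if e ∈ insert e s then 0 else g (insert e s))
        = ex p G (fun _ => (0 : ℝ)) := by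
      refine ex_congr fun s _ => ?_
      rw [if_pos (Finset.mem_insert_self _ _)]
    rw [this, ex_const]
  have h3 : ex p G (fun s => g (s.erase e)) = ex p G g := by
    refine ex_congr fun s hs => ?_
    rw [Finset.erase_eq_of_notMem fun h => hG (hs h)]
  have h4 : ex p G (fun s => g ((insert e s).erase e)) = ex p G g := by
    refine ex_congr fun s hs => ?_
    rw [Finset.erase_insert fun h => hG (hs h)]
  rw [h1, h2, h3, h4]
  ring

theorem gr_erase (e : α) (f : Finset α → ℝ) (s : Finset α) :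
    gr e f (s.erase e) = gr e f s := by
  have h : insert e (s.erase e) = insert e s := by
    ext x
    simp only [Finset.mem_insert, Finset.mem_erase]
    tauto
  simp [gr, h]

theorem gr_insert (e : α) (f : Finset α → ℝ) (s : Finset α) :
    gr e f (insert e s) = gr e f s := by
  simp [gr]

/-- mean of a function of the derivative, computed on the event that `e` is absent -/
theorem ex_gr {e : α} (he : e ∈ F) (hp1 : p < 1) (f : Finset α → ℝ) (k : ℝ → ℝ) :
    ex p F (fun s => k (gr e f s))
      = (1 - p)⁻¹ * ex p F (fun s => if e ∈ s then 0 else k (gr e f s)) := by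
  rw [ex_erase he p (fun s => k (gr e f s))]
  have : (1 - p) ≠ 0 := by linarith
  rw [← mul_assoc, inv_mul_cancel₀ this, one_mul]
  refine ex_congr fun s _ => ?_
  rw [gr_erase]

/-- the energy from a pointwise bound on the absent edges -/
theorem sum_ex_gr_sq_le (hp0 : 0 < p) (hp1 : p < 1) {K : ℝ}
    (h : ∀ s ⊆ F, ∑ e ∈ F \ s, gr e f s ^ 2 ≤ K) :
    ∑ e ∈ F, ex p F (fun s => gr e f s ^ 2) ≤ K / (1 - p) := by
  have h1 : ∀ e ∈ F, ex p F (fun s => gr e f s ^ 2)
      = (1 - p)⁻¹ * ex p F (fun s => if e ∈ s then 0 else gr e f s ^ 2) := fun e he =>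
    ex_gr he hp1 f (fun x => x ^ 2)
  rw [Finset.sum_congr rfl h1, ← Finset.mul_sum, ← ex_finsum, div_eq_inv_mul]
  refine mul_le_mul_of_nonneg_left ?_ (inv_nonneg.2 (by linarith))
  refine ex_le_const hp0.le hp1.le fun s hs => ?_
  have : ∑ e ∈ F, (if e ∈ s then 0 else gr e f s ^ 2) = ∑ e ∈ F \ s, gr e f s ^ 2 := by
    rw [Finset.sdiff_eq_filter, Finset.sum_filter]
    refine Finset.sum_congr rfl fun e _ => ?_
    by_cases h : e ∈ s <;> simp [h]
  rw [this]
  exact h s hs

theorem va_eq (p : ℝ) (F : Finset α) (f : Finset α → ℝ) :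
    va p F f = ex p F (fun s => f s ^ 2) - (ex p F f) ^ 2 := by
  unfold va
  have : ∀ s, (f s - ex p F f) ^ 2 = f s ^ 2 - (2 * ex p F f) * f s + (ex p F f) ^ 2 := by
    intro s; ring
  simp only [this]
  rw [ex_add, ex_sub, ex_mul_left, ex_const]
  ring

theorem va_nonneg (hp0 : 0 ≤ p) (hp1 : p ≤ 1) : 0 ≤ va p F f :=
  ex_nonneg hp0 hp1 fun _ _ => sq_nonneg _

theorem va_le (_hp0 : 0 ≤ p) (_hp1 : p ≤ 1) (f : Finset α → ℝ) (c : ℝ) :
    va p F f ≤ ex p F (fun s => (f s - c) ^ 2) := by
  have h : ∀ s, (f s - c) ^ 2 = f s ^ 2 - (2 * c) * f s + c ^ 2 := by intro s; ring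
  simp only [h]
  rw [ex_add, ex_sub, ex_mul_left, ex_const, va_eq]
  nlinarith [sq_nonneg (ex p F f - c)]

end

section
variable {α β : Type*} [DecidableEq α] [DecidableEq β]

/-- relabelling -/
theorem ex_map (p : ℝ) (F : Finset α) (σ : α ↪ β) (f : Finset β → ℝ) :
    ex p (F.map σ) f = ex p F (fun s => f (s.map σ)) := by
  induction F using Finset.induction_on generalizing f with
  | empty => simp [ex_empty]
  | insert e F he ih =>
    have h' : σ e ∉ F.map σ := by simpa using he
    rw [Finset.map_insert, ex_insert h', ih, ih, ex_insert he]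
    simp only [Finset.map_insert]

end

end Pool.SC
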