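import Pool.Agent.H61.SC.Defs

/-!
# The rows of project SC
-/

namespace Pool.SC

open Finset

/-! ## Probability rows -/

/-- Efron-Stein -/
def S_ES : Prop := ∀ (α : Type) [DecidableEq α] (p : ℝ), 0 < p → p < 1 →
  ∀ (F : Finset α) (f : Finset α → ℝ),
  va p F f ≤ ∑ e ∈ F, ex p F (fun s => gr e f s ^ 2)

/-- fourth moment -/
def S_M4 : Prop := ∀ (α : Type) [DecidableEq α] (p : ℝ), 0 < p → p < 1 →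
  ∀ (F : Finset α) (f : Finset α → ℝ) (K L : ℝ), 0 ≤ K → 0 ≤ L →
  (∀ s ⊆ F, ∑ e ∈ F \ s, gr e f s ^ 2 ≤ K) → (∀ s ⊆ F, ∀ e ∈ F, |gr e f s| ≤ L) →
  ex p F (fun s => (f s - ex p F f) ^ 4) ≤ 10 * (K / (1 - p) + L ^ 2) ^ 2

/-- Hoelder interpolation `E D^2 <= (E|D|)^(2/3) (E D^4)^(1/3)` -/
def S_HO : Prop := ∀ (α : Type) [DecidableEq α] (p : ℝ), 0 < p → p < 1 →
  ∀ (F : Finset α) (D : Finset α → ℝ),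
  (ex p F (fun s => D s ^ 2)) ^ 3 ≤ (ex p F (fun s => |D s|)) ^ 2 * ex p F (fun s => D s ^ 4)

/-- logarithmic Sobolev inequality -/
def S_LS : Prop := ∀ (α : Type) [DecidableEq α] (p : ℝ), 0 < p → p < 1 →
  ∀ (F : Finset α) (g : Finset α → ℝ),
  ex p F (fun s => g s ^ 2 * Real.log (g s ^ 2))
      - ex p F (fun s => g s ^ 2) * Real.log (ex p F (fun s => g s ^ 2))
    ≤ 2 * ∑ e ∈ F, ex p F (fun s => gr e g s ^ 2)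

/-- Herbst: exponential moment of the lower tail -/
def S_HB : Prop := ∀ (α : Type) [DecidableEq α] (p : ℝ), 0 < p → p < 1 →
  ∀ (F : Finset α) (f : Finset α → ℝ) (K : ℝ),
  (∀ s ⊆ F, ∀ e ∈ F, 0 ≤ gr e f s) → (∀ s ⊆ F, ∑ e ∈ F \ s, gr e f s ^ 2 ≤ K) →
  ∀ t : ℝ, 0 ≤ t →
  ex p F (fun s => Real.exp (-(t * f s)))
    ≤ Real.exp (-(t * ex p F f) + t ^ 2 * K / (2 * (1 - p)))

/-- expected minimum of a finite family -/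
def S_MN : Prop := ∀ (α : Type) [DecidableEq α] (p : ℝ), 0 < p → p < 1 →
  ∀ (F : Finset α) (ι : Type) (J : Finset ι) (Y : ι → Finset α → ℝ) (f : Finset α → ℝ)
    (m K Q : ℝ), 0 < K → 0 < Q → Real.log (J.card : ℝ) ≤ Q →
  (∀ j ∈ J, (∀ s ⊆ F, ∀ e ∈ F, 0 ≤ gr e (Y j) s) ∧
    (∀ s ⊆ F, ∑ e ∈ F \ s, gr e (Y j) s ^ 2 ≤ K) ∧ m ≤ ex p F (Y j)) →
  (∀ s ⊆ F, ∃ j ∈ J, Y j s ≤ f s) →
  m - 2 * Real.sqrt (K * Q / (2 * (1 - p))) ≤ ex p F f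

/-- Falik-Samorodnitsky -/
def S_FS : Prop := ∀ (α : Type) [DecidableEq α] (p : ℝ), 0 < p → p < 1 →
  ∀ (F : Finset α) (f : Finset α → ℝ), 0 < va p F f →
  va p F f * Real.log (va p F f / ∑ e ∈ F, (ex p F (fun s => |gr e f s|)) ^ 2)
    ≤ 2 * ∑ e ∈ F, ex p F (fun s => gr e f s ^ 2)

/-! ## Minimal cuts -/

/-- basic facts on minimal cuts -/
def S_CUT : Prop := ∀ (a b : ℝ) (R : Rect) (z1 z2 : ℤ) (P : Set V → Prop) (A : ℝ),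
  0 < a → a < b → z1 < z2 →
  (∃ S0 : Set V, adm R z1 z2 S0 ∧ P S0 ∧ ((cuts R z1 z2 S0).card : ℝ) ≤ A) →
  (∀ T, ∃ S : Set V, adm R z1 z2 S ∧ P S ∧
      en a b T R z1 z2 S = flowC a b R z1 z2 P T ∧ ((cuts R z1 z2 S).card : ℝ) ≤ b / a * A) ∧
  (∀ T (S : Set V), adm R z1 z2 S → P S → flowC a b R z1 z2 P T ≤ en a b T R z1 z2 S) ∧
  (∀ T, 0 ≤ flowC a b R z1 z2 P T ∧ flowC a b R z1 z2 P T ≤ b * A) ∧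
  (∀ T, flowC a b R z1 z2 P (T ∩ eds R z1 z2) = flowC a b R z1 z2 P T) ∧
  (∀ e T, 0 ≤ gr e (flowC a b R z1 z2 P) T ∧ gr e (flowC a b R z1 z2 P) T ≤ b - a) ∧
  (∀ e T (S : Set V), adm R z1 z2 S → P S →
      en a b (T.erase e) R z1 z2 S = flowC a b R z1 z2 P (T.erase e) →
      e ∉ cuts R z1 z2 S → gr e (flowC a b R z1 z2 P) T = 0) ∧
  (∀ F T : Finset Ed, ∑ e ∈ F \ T, gr e (flowC a b R z1 z2 P) T ^ 2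
      ≤ (b - a) ^ 2 * (b / a * A))

/-- the flat cut -/
def S_FLT : Prop := ∀ (R : Rect) (z1 z2 : ℤ), z1 < z2 →
  ∃ S0 : Set V, adm R z1 z2 S0 ∧ ((cuts R z1 z2 S0).card : ℝ) ≤ (R.w : ℝ) * R.l

/-- submodularity -/
def S_SUB : Prop := ∀ (a b : ℝ) (R : Rect) (z1 z1' z2 z2' : ℤ) (T : Finset Ed),
  0 < a → a < b → z1 ≤ z1' → z1' < z2 → z2 ≤ z2' →
  flow a b R z1 z2 T + flow a b R z1' z2' T ≤ flow a b R z1' z2 T + flow a b R z1 z2' T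

/-- a larger slab has a smaller flow -/
def S_MON : Prop := ∀ (a b : ℝ) (R : Rect) (z1 z1' z2 z2' : ℤ) (T : Finset Ed),
  0 < a → a < b → z1 ≤ z1' → z1' < z2 → z2 ≤ z2' →
  flow a b R z1 z2' T ≤ flow a b R z1' z2 T

/-- translation invariance of the mean; `F` may be any set containing the edges of the box -/
def S_INV : Prop := ∀ (p a b : ℝ) (R : Rect) (z1 : ℤ) (H : ℕ) (F : Finset Ed),
  0 < p → p < 1 → 0 < a → a < b → 1 ≤ H → eds R z1 (z1 + H) ⊆ F →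
  ex p F (flow a b R z1 (z1 + H)) = ph p a b R.w R.l H

/-- convexity, monotonicity, bounds -/
def S_CVX : Prop := ∀ (p a b : ℝ) (w l : ℕ), 0 < p → p < 1 → 0 < a → a < b →
  (∀ h : ℕ, 1 ≤ h → 2 * ph p a b w l (h + 1) ≤ ph p a b w l h + ph p a b w l (h + 2)) ∧
  (∀ h : ℕ, 1 ≤ h → ph p a b w l (h + 1) ≤ ph p a b w l h) ∧
  (∀ h : ℕ, 1 ≤ h → 0 ≤ ph p a b w l h ∧ ph p a b w l h ≤ b * (w * l))

/-- superadditivity: a finite family of rectangles with disjoint columns inside `R` -/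
def S_SUP : Prop := ∀ (a b : ℝ) (R : Rect) (z1 z2 : ℤ) (Rs : Finset Rect) (T : Finset Ed)
  (S : Set V), 0 < a → a < b → (∀ Q ∈ Rs, Q.cols ⊆ R.cols) →
  (∀ Q ∈ Rs, ∀ Q' ∈ Rs, Q ≠ Q' → Disjoint Q.cols Q'.cols) →
  ∑ Q ∈ Rs, en a b T Q z1 z2 S
      + a * ((cuts R z1 z2 S \ Rs.biUnion (fun Q => eds Q z1 z2)).card : ℝ)
    ≤ en a b T R z1 z2 S

/-- cells with sides in `[s, 2s)` -/
def S_CEL : Prop := ∀ (R : Rect) (s : ℕ), 1 ≤ s → s ≤ R.w → s ≤ R.l →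
  ∃ Rs : Finset Rect, (∀ Q ∈ Rs, Q.cols ⊆ R.cols ∧ s ≤ Q.w ∧ Q.w < 2 * s ∧ s ≤ Q.l ∧ Q.l < 2 * s) ∧
  (∀ Q ∈ Rs, ∀ Q' ∈ Rs, Q ≠ Q' → Disjoint Q.cols Q'.cols) ∧
  (∑ Q ∈ Rs, Q.w * Q.l = R.w * R.l) ∧ Rs.card * s ^ 2 ≤ R.w * R.l

/-! ## The trace lemma -/

/-- `nu` is an upper bound of the mean flow per column -/
def S_NU : Prop := ∀ (p a b : ℝ) (H : ℕ), 0 < p → p < 1 → 0 < a → a < b → 1 ≤ H →
  0 ≤ nu p a b H ∧ nu p a b H ≤ b ∧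
  ∀ w l : ℕ, ph p a b w l H ≤ nu p a b H * (w * l)

/-- reflection: the mean flow with a fixed trace is at least `nu` per column -/
def S_REF : Prop := ∀ (p a b : ℝ) (R : Rect) (H : ℕ) (Tr : Set V),
  0 < p → p < 1 → 0 < a → a < b → 1 ≤ R.w → 1 ≤ R.l → 1 ≤ H →
  (∃ S0 : Set V, adm R 0 H S0 ∧ trc R Tr S0) →
  nu p a b H * (R.w * R.l) ≤ ex p (eds R 0 (H : ℤ)) (flowC a b R 0 (H : ℤ) (trc R Tr))

/-- coarse traces -/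
def S_COA : Prop := ∀ (R : Rect) (H s' : ℕ) (P A : ℝ), 1 ≤ H → 1 ≤ s' → 4 * s' ≤ R.w →
  4 * s' ≤ R.l → 0 ≤ P → 0 ≤ A →
  ∃ J : Finset (Set V), Real.log (J.card : ℝ)
      ≤ (P / s' + 1) * Real.log (2 + 2 * ((R.w : ℝ) + R.l) * H) ∧
  (∀ Tr ∈ J, ∃ S0 : Set V, adm R 0 (H : ℤ) S0 ∧ trc R Tr S0 ∧
      ((cuts R 0 (H : ℤ) S0).card : ℝ) ≤ A + 12 * s' * P) ∧
  (∀ S : Set V, adm R 0 (H : ℤ) S → ((bcuts R 0 (H : ℤ) S).card : ℝ) ≤ P →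
    ((cuts R 0 (H : ℤ) S).card : ℝ) ≤ A →
    ∃ Tr ∈ J, ∃ S' : Set V, adm R 0 (H : ℤ) S' ∧ trc R Tr S' ∧
      ∀ (a b : ℝ) (T : Finset Ed), 0 < a → a < b →
        en a b T R 0 (H : ℤ) S' ≤ en a b T R 0 (H : ℤ) S + 12 * b * s' * P)

/-- selection of the inner rectangle -/
def S_SEL : Prop := ∀ (w l s H : ℕ) (S : Set V), 1 ≤ s → 8 * s ≤ w → 8 * s ≤ l →
  ∃ i u j v : ℕ, s ≤ i ∧ i < 2 * s ∧ s ≤ u ∧ u < 2 * s ∧ s ≤ j ∧ j < 2 * s ∧ s ≤ v ∧ v < 2 * s ∧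
    (bcuts ⟨i, j, w - i - u, l - j - v⟩ 0 (H : ℤ) S).card * s
      ≤ 4 * (cuts (sq w l) 0 (H : ℤ) S).card

/-- decomposition of the frame -/
def S_FRM : Prop := ∀ (w l s i u j v : ℕ), 1 ≤ s → 8 * s ≤ w → 8 * s ≤ l →
  s ≤ i → i < 2 * s → s ≤ u → u < 2 * s → s ≤ j → j < 2 * s → s ≤ v → v < 2 * s →
  ∃ Rs : Finset Rect,
    (∀ Q ∈ Rs, Q.cols ⊆ (sq w l).cols ∧ s ≤ Q.w ∧ Q.w < 2 * s ∧ s ≤ Q.l ∧ Q.l < 2 * s ∧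
      Disjoint Q.cols (⟨i, j, w - i - u, l - j - v⟩ : Rect).cols) ∧
    (∀ Q ∈ Rs, ∀ Q' ∈ Rs, Q ≠ Q' → Disjoint Q.cols Q'.cols) ∧
    (∑ Q ∈ Rs, Q.w * Q.l) + (w - i - u) * (l - j - v) = w * l ∧
    Rs.card * s ≤ 4 * (w + l)

/-- one step of the recursion over scales -/
def S_STP : Prop := ∀ (p a b : ℝ), 0 < p → p < 1 → 0 < a → a < b →
  ∃ C : ℝ, 0 < C ∧ ∀ (r s s' H : ℕ) (Λ E : ℝ), 1 ≤ s' → s' ≤ s → 8 * s ≤ r → 1 ≤ H → 0 ≤ E →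
  1 ≤ Λ → Real.log (2 + 8 * r * H) ≤ Λ ^ 2 →
  (∀ w l : ℕ, s ≤ w → w < 2 * s → s ≤ l → l < 2 * s →
    nu p a b H * (w * l) - E ≤ ph p a b w l H) →
  ∀ w l : ℕ, r ≤ w → w < 2 * r → r ≤ l → l < 2 * r →
    nu p a b H * (w * l) - 16 * (r / s) * E
      - C * (s' * (r : ℝ) ^ 2 / s + r * Real.sqrt ((r : ℝ) ^ 2 / (s * s') + 1) * Λ)
      ≤ ph p a b w l H

/-- the trace lemma -/
def S_TLM : Prop := ∀ (p a b : ℝ), 0 < p → p < 1 → 0 < a → a < b →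
  ∃ C : ℝ, 0 < C ∧ ∀ (r H : ℕ) (Λ : ℝ), 1 ≤ r → 1 ≤ H → 1 ≤ Λ →
  Real.log (2 + 8 * r * H) ≤ Λ ^ 2 →
  ∀ w l : ℕ, r ≤ w → w < 2 * r → r ≤ l → l < 2 * r →
    nu p a b H * (w * l) - C * (r : ℝ) ^ ((4 : ℝ) / 3) * Λ ≤ ph p a b w l H

/-! ## Vertical extent and confinement -/

open Classical in
/-- isoperimetry in a square -/
def S_ISO : Prop := ∀ (n : ℕ) (A : Finset (ℤ × ℤ)), A ⊆ (sq n n).cols → 2 * A.card ≤ n ^ 2 →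
  A.card ≤ 2 * (((sq n n).cols.filter (fun q => (q.1 + 1, q.2) ∈ (sq n n).cols ∧
      ¬ (q ∈ A ↔ (q.1 + 1, q.2) ∈ A))).card
    + ((sq n n).cols.filter (fun q => (q.1, q.2 + 1) ∈ (sq n n).cols ∧
      ¬ (q ∈ A ↔ (q.1, q.2 + 1) ∈ A))).card) ^ 2

/-- the vertical extent of a minimal cut over a square -/
def S_EXT : Prop := ∀ (a b : ℝ), 0 < a → a < b → ∃ K : ℕ, 1 ≤ K ∧
  ∀ (r : ℕ) (z1 z2 : ℤ) (T : Finset Ed) (S : Set V), 1 ≤ r → z1 < z2 →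
  adm (sq r r) z1 z2 S → en a b T (sq r r) z1 z2 S = flow a b (sq r r) z1 z2 T →
  ∃ u : ℤ, z1 ≤ u ∧ u < z2 ∧ ∀ v : V, (v.1, v.2.1) ∈ (sq r r).cols →
    (v.2.2 ≤ u → v ∈ S) ∧ (u + K * r ≤ v.2.2 → v ∉ S)

/-- windows -/
def S_WIN : Prop := ∀ (p a b : ℝ), 0 < p → p < 1 → 0 < a → a < b →
  ∃ K : ℕ, 1 ≤ K ∧ ∃ C : ℝ, 0 < C ∧ ∀ r H : ℕ, 1 ≤ r → 2 * K * r ≤ H →
    ph p a b r r (2 * K * r) - ph p a b r r H ≤ C * Real.sqrt ((H : ℝ) * r)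

/-- confinement -/
def S_CNF : Prop := ∀ (p a b : ℝ), 0 < p → p < 1 → 0 < a → a < b →
  ∃ C : ℝ, 0 < C ∧ ∃ H0 : ℕ, 4 ≤ H0 ∧ ∀ (n H : ℕ) (Λ : ℝ), 1 ≤ n → H0 ≤ H → 1 ≤ Λ →
  Real.log (2 + 8 * n * H) ≤ Λ ^ 2 →
  ph p a b n n (H / 2) - ph p a b n n H
    ≤ C * Λ * ((n : ℝ) ^ 2 * (H : ℝ) ^ (-(2 : ℝ) / 3) + (n : ℝ) ^ ((4 : ℝ) / 3)
        + Real.sqrt ((n : ℝ) * H))

/-- first moment closeness of the shifted flow -/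
def S_CLO : Prop := ∀ (p a b : ℝ) (n H z : ℕ), 0 < p → p < 1 → 0 < a → a < b → 1 ≤ n →
  1 ≤ H → 8 * z ≤ H → ∀ F : Finset Ed, eds (sq n n) 0 ((H : ℤ) + z) ⊆ F →
  ex p F (fun T => |flow a b (sq n n) 0 (H : ℤ) T - flow a b (sq n n) (z : ℤ) ((H : ℤ) + z) T|)
    ≤ 8 * z / H * (ph p a b n n (H / 2) - ph p a b n n H)

/-- second moment closeness -/
def S_CL2 : Prop := ∀ (p a b : ℝ), 0 < p → p < 1 → 0 < a → a < b →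
  ∃ C : ℝ, 0 < C ∧ ∀ (n H z : ℕ), 1 ≤ n → 1 ≤ H →
  ∀ F : Finset Ed, eds (sq n n) 0 ((H : ℤ) + z) ⊆ F →
  (ex p F (fun T => (flow a b (sq n n) 0 (H : ℤ) T
      - flow a b (sq n n) (z : ℤ) ((H : ℤ) + z) T) ^ 2)) ^ 3
    ≤ C * (n : ℝ) ^ 4 * (ex p F (fun T => |flow a b (sq n n) 0 (H : ℤ) T
      - flow a b (sq n n) (z : ℤ) ((H : ℤ) + z) T|)) ^ 2

/-! ## Influences -/

/-- energy of the averaged flow -/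
def S_ENB : Prop := ∀ (p a b : ℝ), 0 < p → p < 1 → 0 < a → a < b →
  ∃ C : ℝ, 0 < C ∧ ∀ (n H M : ℕ), 1 ≤ n → 1 ≤ H → 1 ≤ M →
  ∑ e ∈ eds (sq n n) 0 ((H : ℤ) + M),
    ex p (eds (sq n n) 0 ((H : ℤ) + M)) (fun T => gr e (fbar a b n H M) T ^ 2) ≤ C * (n : ℝ) ^ 2

/-- squared influences of the averaged flow -/
def S_INF : Prop := ∀ (p a b : ℝ), 0 < p → p < 1 → 0 < a → a < b →
  ∃ C : ℝ, 0 < C ∧ ∀ (n H M r : ℕ) (E : ℝ), 1 ≤ r → r ≤ n → 1 ≤ H → 1 ≤ M → 0 ≤ E →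
  (∀ w l : ℕ, r ≤ w → w < 2 * r → r ≤ l → l < 2 * r →
    nu p a b H * (w * l) - E ≤ ph p a b w l H) →
  ∑ e ∈ eds (sq n n) 0 ((H : ℤ) + M),
    (ex p (eds (sq n n) 0 ((H : ℤ) + M)) (fun T => |gr e (fbar a b n H M) T|)) ^ 2
    ≤ C * ((n : ℝ) ^ 2 * (r : ℝ) ^ 2 / M + (n : ℝ) ^ 2 * E / (r : ℝ) ^ 2)

/-- the same for huge heights -/
def S_IN2 : Prop := ∀ (p a b : ℝ), 0 < p → p < 1 → 0 < a → a < b →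
  ∃ C : ℝ, 0 < C ∧ ∀ (n H M : ℕ), 1 ≤ n → 1 ≤ H → 1 ≤ M →
  ∑ e ∈ eds (sq n n) 0 ((H : ℤ) + M),
    (ex p (eds (sq n n) 0 ((H : ℤ) + M)) (fun T => |gr e (fbar a b n H M) T|)) ^ 2
    ≤ C * (n : ℝ) ^ 4 / M

/-! ## Conclusion -/

/-- the theorem in the finite model -/
def S_MAI : Prop := ∀ (p a b ε c : ℝ), 0 < p → p < 1 → 0 < a → a < b → 3 / 5 < ε → 0 < c →
  ∃ C : ℝ, ∀ n H : ℕ, 2 ≤ n → c * (n : ℝ) ^ ε ≤ H →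
    va p (eds (sq (n + 1) (n + 1)) 0 (H : ℤ)) (flow a b (sq (n + 1) (n + 1)) 0 (H : ℤ))
      ≤ C * ((n : ℝ) ^ 2 / Real.log n)

end Pool.SC
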