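import Pool.Agent.H61.SC.Fin
import Pool.Agent.H20.SC.COA
import Pool.Agent.H23.SC.MAI
import Pool.Agent.H37.SC.EXT
import Pool.Agent.H43.SC.STP
import Pool.Agent.H44.SC.ENB
import Pool.Agent.H44.SC.LS
import Pool.Agent.H44.SC.M4
import Pool.Agent.H46.SC.FRM
import Pool.Agent.H50.SC.CNF
import Pool.Agent.H50.SC.IN2
import Pool.Agent.H52.SC.REF
import Pool.Agent.H59.SC.HB
import Pool.Agent.H59.SC.MN
import Pool.Agent.H64.SC.ES
import Pool.Agent.H64.SC.Cut0
import Pool.Agent.H67.SC.SEL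
import Pool.Agent.H67.SC.CVX
import Pool.Agent.H67.SC.CLO
import Pool.Agent.H67.SC.CL2
import Pool.Agent.H78.SC.FS
import Pool.Agent.H81.SC.WIN
import Pool.Agent.H86.SC.CUT
import Pool.Agent.H86.SC.INV
import Pool.Agent.H90.SC.TLM
import Pool.Agent.H98.SC.CEL
import Pool.Agent.H98.SC.SUP

/-!
# Assembly of project SC (everything except the row INF)
-/

namespace Pool.SC

theorem all_LS : S_LS := by exact Pool.SC.ls
theorem all_MN : S_MN := mn_thm (hb_thm all_LS)
theorem all_CVX : S_CVX := cvx_thm sub_thm mon_thm inv_thm cut_thm flt_thm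
theorem all_REF : S_REF := ref_thm cut_thm sup_thm inv_thm
theorem all_STP : S_STP := stp_thm cut_thm flt_thm inv_thm sup_thm all_REF coa_thm sel_thm
  (frm_thm cel_thm) all_MN
theorem all_TLM : S_TLM := tlm_thm all_STP nu_thm
theorem all_WIN : S_WIN := win_thm ext_thm all_MN inv_thm cut_thm flt_thm
theorem all_CNF : S_CNF := cnf_thm all_TLM all_WIN all_CVX nu_thm
theorem all_CLO : S_CLO := clo_thm mon_thm inv_thm all_CVX
theorem all_CL2 : S_CL2 := cl2_thm Pool.SC.ho (Pool.SC.m4 es_thm) cut_thm flt_thm inv_thm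
theorem all_ENB : S_ENB := Pool.SC.enb cut_thm flt_thm
theorem all_IN2 : S_IN2 := in2_thm cut_thm flt_thm

theorem main_of_inf (h : S_INF) : S_FIN :=
  fin_thm (mai_thm (fs_thm all_LS) es_thm all_CNF all_CLO all_CL2 all_ENB h all_IN2 all_TLM
    cut_thm flt_thm all_CVX)

end Pool.SC
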