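import Mathlib

/-!
# Superconcentration of the maximal flow in thin cylinders (MP_dbd530), d = 3: definitions

Probability: a random subset `s` of a finite set `F`, every element kept with probability `p`
(elements of `s` are the edges of capacity `b`, the others have capacity `a`).
Geometry: vertices `(x, y, h)`, edges `(i, v)` joining `v` and `v + unitv i`.
-/

namespace Pool.SC

open Finset

section Prob
variable {α : Type*} [DecidableEq α]

/-- expectation of `f` over a random subset of `F` -/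
noncomputable def ex (p : ℝ) (F : Finset α) (f : Finset α → ℝ) : ℝ :=
  ∑ s ∈ F.powerset, p ^ s.card * (1 - p) ^ (F.card - s.card) * f s

/-- discrete derivative in the direction `e` -/
def gr (e : α) (f : Finset α → ℝ) : Finset α → ℝ := fun s => f (insert e s) - f (s.erase e)

/-- variance -/
noncomputable def va (p : ℝ) (F : Finset α) (f : Finset α → ℝ) : ℝ :=
  ex p F (fun s => (f s - ex p F f) ^ 2)

end Prob

abbrev V := ℤ × ℤ × ℤ
abbrev Ed := Fin 3 × V

def unitv : Fin 3 → V := ![(1, 0, 0), (0, 1, 0), (0, 0, 1)]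
def hd (e : Ed) : V := e.2
def tl (e : Ed) : V := e.2 + unitv e.1

/-- base rectangle: columns `(x, y)` with `R.x <= x < R.x + R.w`, `R.y <= y < R.y + R.l` -/
structure Rect where
  x : ℤ
  y : ℤ
  w : ℕ
  l : ℕ
deriving DecidableEq

noncomputable def Rect.cols (R : Rect) : Finset (ℤ × ℤ) :=
  Finset.Ico R.x (R.x + R.w) ×ˢ Finset.Ico R.y (R.y + R.l)

/-- vertices of the box `R x [z1, z2]` -/
noncomputable def box (R : Rect) (z1 z2 : ℤ) : Finset V :=
  Finset.Ico R.x (R.x + R.w) ×ˢ (Finset.Ico R.y (R.y + R.l) ×ˢ Finset.Icc z1 z2)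

/-- edges with both endpoints in the box -/
noncomputable def eds (R : Rect) (z1 z2 : ℤ) : Finset Ed :=
  ((Finset.univ : Finset (Fin 3)) ×ˢ box R z1 z2).filter (fun e => tl e ∈ box R z1 z2)

/-- `e` is cut by `S` -/
def cutE (S : Set V) (e : Ed) : Prop := ¬ (hd e ∈ S ↔ tl e ∈ S)

open Classical in
/-- the edges of the box cut by `S` -/
noncomputable def cuts (R : Rect) (z1 z2 : ℤ) (S : Set V) : Finset Ed :=
  (eds R z1 z2).filter (fun e => cutE S e)

/-- capacity of the edge `e` in the configuration `T` -/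
noncomputable def cap (a b : ℝ) (T : Finset Ed) (e : Ed) : ℝ := if e ∈ T then b else a

/-- total capacity of the edges cut by `S` -/
noncomputable def en (a b : ℝ) (T : Finset Ed) (R : Rect) (z1 z2 : ℤ) (S : Set V) : ℝ :=
  ∑ e ∈ cuts R z1 z2 S, cap a b T e

/-- `S` contains everything up to level `z1` and nothing from level `z2` on -/
def adm (R : Rect) (z1 z2 : ℤ) (S : Set V) : Prop :=
  ∀ v : V, (v.1, v.2.1) ∈ R.cols → (v.2.2 ≤ z1 → v ∈ S) ∧ (z2 ≤ v.2.2 → v ∉ S)

/-- minimal cut among the admissible `S` with property `P` -/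
noncomputable def flowC (a b : ℝ) (R : Rect) (z1 z2 : ℤ) (P : Set V → Prop) (T : Finset Ed) : ℝ :=
  sInf {r : ℝ | ∃ S : Set V, adm R z1 z2 S ∧ P S ∧ r = en a b T R z1 z2 S}

/-- minimal cut of the box `R x [z1, z2]` -/
noncomputable def flow (a b : ℝ) (R : Rect) (z1 z2 : ℤ) (T : Finset Ed) : ℝ :=
  flowC a b R z1 z2 (fun _ => True) T

/-- the base rectangle `[0,w) x [0,l)` -/
def sq (w l : ℕ) : Rect := ⟨0, 0, w, l⟩

/-- mean flow -/
noncomputable def ph (p a b : ℝ) (w l H : ℕ) : ℝ :=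
  ex p (eds (sq w l) 0 (H : ℤ)) (flow a b (sq w l) 0 (H : ℤ))

/-- limit of the mean flow per column -/
noncomputable def nu (p a b : ℝ) (H : ℕ) : ℝ :=
  ⨆ q : ℕ × ℕ, ph p a b (q.1 + 1) (q.2 + 1) H / (((q.1 : ℝ) + 1) * ((q.2 : ℝ) + 1))

/-- boundary columns -/
def bd (R : Rect) (q : ℤ × ℤ) : Prop :=
  q ∈ R.cols ∧ (q.1 = R.x ∨ q.1 = R.x + R.w - 1 ∨ q.2 = R.y ∨ q.2 = R.y + R.l - 1)

/-- `S` has the trace `Tr` on the boundary columns -/
def trc (R : Rect) (Tr S : Set V) : Prop :=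
  ∀ v : V, bd R (v.1, v.2.1) → (v ∈ S ↔ v ∈ Tr)

/-- `e` lies in one of the four boundary planes of `R` -/
def inpl (R : Rect) (e : Ed) : Prop :=
  ((hd e).1 = R.x ∧ (tl e).1 = R.x) ∨
  ((hd e).1 = R.x + R.w - 1 ∧ (tl e).1 = R.x + R.w - 1) ∨
  ((hd e).2.1 = R.y ∧ (tl e).2.1 = R.y) ∨
  ((hd e).2.1 = R.y + R.l - 1 ∧ (tl e).2.1 = R.y + R.l - 1)

open Classical in
/-- cut edges in the boundary planes -/
noncomputable def bcuts (R : Rect) (z1 z2 : ℤ) (S : Set V) : Finset Ed :=
  (cuts R z1 z2 S).filter (fun e => inpl R e)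

/-- average of the flows of the shifted slabs -/
noncomputable def fbar (a b : ℝ) (n H M : ℕ) (T : Finset Ed) : ℝ :=
  (∑ z ∈ Finset.range M, flow a b (sq n n) (z : ℤ) ((H : ℤ) + z) T) / M

end Pool.SC
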