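import Pool.Agent.H61.SC.FinDefs
import Pool.Agent.H61.SC.Ex
import Pool.Agent.H61.SC.Stmts

/-!
# Row FIN: from the finite model to the problem form
-/

set_option linter.unusedSectionVars false
set_option linter.unusedVariables false

namespace Pool.SC

open MeasureTheory ProbabilityTheory

namespace FinP

/-- coordinates -/
def toV (v : V) : Vert := ![v.1, v.2.1, v.2.2]

def ofV (u : Vert) : V := (u 0, u 1, u 2)

theorem toV_ofV (u : Vert) : toV (ofV u) = u := by
  funext i
  fin_cases i <;> rfl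

theorem ofV_toV (v : V) : ofV (toV v) = v := by
  rfl

theorem toV_inj {v w : V} (h : toV v = toV w) : v = w := by
  rw [← ofV_toV v, ← ofV_toV w, h]

def psi (e : Ed) : Sym2 Vert := s(toV (hd e), toV (tl e))

theorem unitv_inj : ∀ i j : Fin 3, unitv i = unitv j → i = j := by decide

theorem unitv_add : ∀ i j : Fin 3, unitv i + unitv j ≠ 0 := by decide

theorem psi_inj : Function.Injective psi := by
  rintro ⟨i, v⟩ ⟨j, w⟩ h
  unfold psi at h
  rw [Sym2.eq_iff] at h
  rcases h with ⟨h1, h2⟩ | ⟨h1, h2⟩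
  · have h1' : v = w := toV_inj h1
    have h2' : v + unitv i = w + unitv j := toV_inj h2
    subst h1'
    have := unitv_inj i j (add_left_cancel h2')
    rw [this]
  · have h1' : v = w + unitv j := toV_inj h1
    have h2' : v + unitv i = w := toV_inj h2
    exfalso
    apply unitv_add j i
    have : w + (unitv j + unitv i) = w + 0 := by
      rw [← add_assoc, ← h1', h2', add_zero]
    exact add_left_cancel this

theorem adj_unit (v : V) (i : Fin 3) : latt.Adj (toV v) (toV (v + unitv i)) := by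
  show ∑ k, |toV v k - toV (v + unitv i) k| = 1
  rw [Fin.sum_univ_three]
  fin_cases i <;> simp [toV, unitv]

theorem adj_cases {v w : V} (h : latt.Adj (toV v) (toV w)) :
    (∃ i, w = v + unitv i) ∨ (∃ i, v = w + unitv i) := by
  have h1 : ∑ k, |toV v k - toV w k| = 1 := h
  rw [Fin.sum_univ_three] at h1
  obtain ⟨x, y, z⟩ := v
  obtain ⟨x', y', z'⟩ := w
  have h2 : |x - x'| + |y - y'| + |z - z'| = 1 := h1
  simp only [Int.abs_eq_natAbs] at h2
  have hx : (x - x').natAbs = 0 ∨ (x - x').natAbs = 1 := by omega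
  have hy : (y - y').natAbs = 0 ∨ (y - y').natAbs = 1 := by omega
  have hz : (z - z').natAbs = 0 ∨ (z - z').natAbs = 1 := by omega
  have hxx : (x - x').natAbs = 0 → x = x' := by omega
  have hyy : (y - y').natAbs = 0 → y = y' := by omega
  have hzz : (z - z').natAbs = 0 → z = z' := by omega
  have hx1 : (x - x').natAbs = 1 → x' = x + 1 ∨ x = x' + 1 := by omega
  have hy1 : (y - y').natAbs = 1 → y' = y + 1 ∨ y = y' + 1 := by omega
  have hz1 : (z - z').natAbs = 1 → z' = z + 1 ∨ z = z' + 1 := by omega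
  rcases hx with hx | hx
  · have r1 := hxx hx
    rcases hy with hy | hy
    · have r2 := hyy hy
      rcases hz with hz | hz
      · exfalso; rw [hx, hy, hz] at h2; simp at h2
      · subst r1; subst r2
        rcases hz1 hz with r3 | r3
        · left; exact ⟨2, by subst r3; simp [unitv]⟩
        · right; exact ⟨2, by subst r3; simp [unitv]⟩
    · rcases hz with hz | hz
      · have r3 := hzz hz
        subst r1; subst r3
        rcases hy1 hy with r2 | r2
        · left; exact ⟨1, by subst r2; simp [unitv]⟩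
        · right; exact ⟨1, by subst r2; simp [unitv]⟩
      · exfalso; rw [hx, hy, hz] at h2; simp at h2
  · rcases hy with hy | hy
    · have r2 := hyy hy
      rcases hz with hz | hz
      · have r3 := hzz hz
        subst r2; subst r3
        rcases hx1 hx with r1 | r1
        · left; exact ⟨0, by subst r1; simp [unitv]⟩
        · right; exact ⟨0, by subst r1; simp [unitv]⟩
      · exfalso; rw [hx, hy, hz] at h2; simp at h2
    · exfalso
      rw [hx, hy] at h2
      have h0 : (0 : ℤ) ≤ ((z - z').natAbs : ℤ) := Int.natCast_nonneg _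
      generalize ((z - z').natAbs : ℤ) = m at h2 h0
      norm_num at h2
      linarith

theorem mem_box (n H : ℕ) (v : V) :
    v ∈ box (sq (n + 1) (n + 1)) 0 (H : ℤ) ↔ toV v ∈ Cyl n H := by
  obtain ⟨x, y, z⟩ := v
  simp only [box, sq, Finset.mem_product, Finset.mem_Ico, Finset.mem_Icc, Cyl, Set.mem_ofPred_eq,
    toV, Matrix.cons_val_zero, Matrix.cons_val_one, Matrix.cons_val_two, Matrix.head_cons,
    Matrix.tail_cons]
  push_cast
  omega

theorem mem_eds (R : Rect) (z1 z2 : ℤ) (e : Ed) :
    e ∈ eds R z1 z2 ↔ hd e ∈ box R z1 z2 ∧ tl e ∈ box R z1 z2 := by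
  obtain ⟨i, v⟩ := e
  simp [eds, hd]

theorem psi_mem (n H : ℕ) (e : Ed) (he : e ∈ eds (sq (n + 1) (n + 1)) 0 (H : ℤ)) :
    psi e ∈ latt.edgeSet ∧ ∀ v ∈ psi e, v ∈ Cyl n H := by
  rw [mem_eds] at he
  refine ⟨?_, ?_⟩
  · obtain ⟨i, v⟩ := e
    exact adj_unit v i
  · intro v hv
    unfold psi at hv
    rw [Sym2.mem_iff] at hv
    rcases hv with rfl | rfl
    · exact (mem_box n H _).1 he.1
    · exact (mem_box n H _).1 he.2

/-- every lattice edge inside the cylinder comes from the model -/
theorem exists_psi (n H : ℕ) (u v : Vert) (h : latt.Adj u v) (hu : u ∈ Cyl n H)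
    (hv : v ∈ Cyl n H) : ∃ e ∈ eds (sq (n + 1) (n + 1)) 0 (H : ℤ), psi e = s(u, v) ∧
      ((hd e = ofV u ∧ tl e = ofV v) ∨ (hd e = ofV v ∧ tl e = ofV u)) := by
  have h' : latt.Adj (toV (ofV u)) (toV (ofV v)) := by rwa [toV_ofV, toV_ofV]
  have hu' : ofV u ∈ box (sq (n + 1) (n + 1)) 0 (H : ℤ) := by rwa [mem_box, toV_ofV]
  have hv' : ofV v ∈ box (sq (n + 1) (n + 1)) 0 (H : ℤ) := by rwa [mem_box, toV_ofV]
  rcases adj_cases h' with ⟨i, hi⟩ | ⟨i, hi⟩
  · refine ⟨(i, ofV u), ?_, ?_, ?_⟩
    · rw [mem_eds]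
      refine ⟨hu', ?_⟩
      show ofV u + unitv i ∈ _
      rw [← hi]; exact hv'
    · show s(toV (ofV u), toV (ofV u + unitv i)) = _
      rw [← hi, toV_ofV, toV_ofV]
    · left; exact ⟨rfl, hi.symm⟩
  · refine ⟨(i, ofV v), ?_, ?_, ?_⟩
    · rw [mem_eds]
      refine ⟨hv', ?_⟩
      show ofV v + unitv i ∈ _
      rw [← hi]; exact hu'
    · show s(toV (ofV v), toV (ofV v + unitv i)) = _
      rw [← hi, toV_ofV, toV_ofV, Sym2.eq_swap]
    · right; exact ⟨rfl, hi.symm⟩

theorem mem_cols (n : ℕ) (q : ℤ × ℤ) :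
    q ∈ (sq (n + 1) (n + 1)).cols ↔ (0 ≤ q.1 ∧ q.1 ≤ n) ∧ (0 ≤ q.2 ∧ q.2 ≤ n) := by
  obtain ⟨x, y⟩ := q
  simp only [Rect.cols, sq, Finset.mem_product, Finset.mem_Ico]
  push_cast
  omega

/-- from an admissible set to a cut-set -/
theorem isCut_of_adm (n H : ℕ) (S : Set V) (hS : adm (sq (n + 1) (n + 1)) 0 (H : ℤ) S) :
    IsCut n H ((cuts (sq (n + 1) (n + 1)) 0 (H : ℤ) S).image psi) := by
  classical
  refine ⟨?_, ?_⟩
  · intro e he
    obtain ⟨e', he', rfl⟩ := Finset.mem_image.1 he
    exact psi_mem n H e' (Finset.mem_filter.1 he').1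
  · intro u v w hu hv hw
    have hu' := hw u w.start_mem_support
    have hv' := hw v w.end_mem_support
    have hucol : ((ofV u).1, (ofV u).2.1) ∈ (sq (n + 1) (n + 1)).cols := by
      rw [mem_cols]; exact ⟨hu'.1, hu'.2.1⟩
    have hvcol : ((ofV v).1, (ofV v).2.1) ∈ (sq (n + 1) (n + 1)).cols := by
      rw [mem_cols]; exact ⟨hv'.1, hv'.2.1⟩
    have huS : ofV u ∈ S := (hS _ hucol).1 (le_of_eq hu)
    have hvS : ofV v ∉ S := (hS _ hvcol).2 (le_of_eq hv.symm)
    obtain ⟨d, hd1, hd2, hd3⟩ := w.exists_boundary_dart {x | ofV x ∈ S} huS hvS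
    have e1 : d.toProd.1 ∈ Cyl n H := hw _ (w.dart_fst_mem_support_of_mem_darts hd1)
    have e2 : d.toProd.2 ∈ Cyl n H := hw _ (w.dart_snd_mem_support_of_mem_darts hd1)
    obtain ⟨e, he, hpe, hht⟩ := exists_psi n H _ _ d.adj e1 e2
    refine ⟨psi e, ?_, ?_⟩
    · rw [hpe]
      exact List.mem_map_of_mem hd1
    · refine Finset.mem_image_of_mem _ ?_
      refine Finset.mem_filter.2 ⟨he, ?_⟩
      unfold cutE
      simp only [Set.mem_ofPred_eq] at hd2 hd3
      rcases hht with ⟨r1, r2⟩ | ⟨r1, r2⟩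
      · rw [r1, r2]; tauto
      · rw [r1, r2]; tauto

/-- from a cut-set to an admissible set -/
theorem adm_of_isCut (n H : ℕ) (hH : 0 < H) (E : Finset (Sym2 Vert)) (hE : IsCut n H E) :
    ∃ S : Set V, adm (sq (n + 1) (n + 1)) 0 (H : ℤ) S ∧
      (cuts (sq (n + 1) (n + 1)) 0 (H : ℤ) S).image psi ⊆ E := by
  classical
  let S : Set V := {v | v.2.2 ≤ 0 ∨ ∃ (u : Vert) (w : latt.Walk u (toV v)), u 2 = 0 ∧
    (∀ x ∈ w.support, x ∈ Cyl n H) ∧ ∀ e ∈ w.edges, e ∉ E}
  refine ⟨S, ?_, ?_⟩
  · intro v hv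
    refine ⟨fun h => Or.inl h, fun h hvS => ?_⟩
    rcases hvS with h' | ⟨u, w, hu, hw, hwE⟩
    · have : (0 : ℤ) < H := by exact_mod_cast hH
      omega
    · have h1 := hw _ w.end_mem_support
      have h2 : toV v 2 = H := le_antisymm h1.2.2.2 h
      obtain ⟨e, he, heE⟩ := hE.2 u _ w hu h2 hw
      exact hwE e he heE
  · intro x hx
    obtain ⟨e, he, rfl⟩ := Finset.mem_image.1 hx
    obtain ⟨he1, he2⟩ := Finset.mem_filter.1 he
    by_contra hcon
    obtain ⟨hb1, hb2⟩ := (mem_eds _ _ _ _).1 he1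
    have hc1 := (mem_box n H _).1 hb1
    have hc2 := (mem_box n H _).1 hb2
    -- if one endpoint is in `S` then so is the other
    have key : ∀ v w : V, toV v ∈ Cyl n H → toV w ∈ Cyl n H → latt.Adj (toV v) (toV w) →
        s(toV v, toV w) ∉ E → v ∈ S → w ∈ S := by
      intro v w hv hw hadj hnE hvS
      have : ∃ (u : Vert) (q : latt.Walk u (toV v)), u 2 = 0 ∧
          (∀ x ∈ q.support, x ∈ Cyl n H) ∧ ∀ e ∈ q.edges, e ∉ E := by
        rcases hvS with h' | h'
        · refine ⟨toV v, SimpleGraph.Walk.nil, le_antisymm h' hv.2.2.1, ?_, ?_⟩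
          · intro x hx
            simp only [SimpleGraph.Walk.support_nil, List.mem_singleton] at hx
            rw [hx]; exact hv
          · intro e he
            simp at he
        · exact h'
      obtain ⟨u, q, hu, hq, hqE⟩ := this
      right
      refine ⟨u, q.concat hadj, hu, ?_, ?_⟩
      · intro x hx
        rw [SimpleGraph.Walk.support_concat, List.mem_append] at hx
        rcases hx with hx | hx
        · exact hq x hx
        · rw [List.mem_singleton] at hx; rw [hx]; exact hw
      · intro e he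
        rw [SimpleGraph.Walk.edges_concat, List.concat_eq_append, List.mem_append] at he
        rcases he with he | he
        · exact hqE e he
        · rw [List.mem_singleton] at he; rw [he]; exact hnE
    have hadj : latt.Adj (toV (hd e)) (toV (tl e)) := by
      obtain ⟨i, v⟩ := e
      exact adj_unit v i
    apply he2
    constructor
    · intro h
      exact key _ _ hc1 hc2 hadj hcon h
    · intro h
      refine key _ _ hc2 hc1 hadj.symm ?_ h
      rw [Sym2.eq_swap]
      exact hcon

/-- the two descriptions of the maximal flow agree -/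
theorem maxFlow_eq (a b : ℝ) (ha : 0 < a) (hab : a < b) (n H : ℕ) (hH : 0 < H)
    (t : Sym2 Vert → ℝ) (T : Finset Ed)
    (ht : ∀ e ∈ eds (sq (n + 1) (n + 1)) 0 (H : ℤ), t (psi e) = cap a b T e) :
    maxFlow n H t = flow a b (sq (n + 1) (n + 1)) 0 (H : ℤ) T := by
  classical
  have hcap : ∀ e, 0 ≤ cap a b T e := by
    intro e
    unfold cap
    split_ifs <;> linarith
  have hsum : ∀ S : Set V, ∑ e ∈ (cuts (sq (n + 1) (n + 1)) 0 (H : ℤ) S).image psi, t e
      = en a b T (sq (n + 1) (n + 1)) 0 (H : ℤ) S := by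
    intro S
    rw [Finset.sum_image (fun x _ y _ h => psi_inj h)]
    unfold en
    exact Finset.sum_congr rfl fun e he => ht e (Finset.mem_filter.1 he).1
  have htE : ∀ E : Finset (Sym2 Vert), IsCut n H E → ∀ e ∈ E, 0 ≤ t e := by
    intro E hE e he
    obtain ⟨h1, h2⟩ := hE.1 e he
    induction e using Sym2.ind with
    | _ u v =>
      obtain ⟨e', he', hpe, _⟩ := exists_psi n H u v h1 (h2 u (Sym2.mem_mk_left u v))
        (h2 v (Sym2.mem_mk_right u v))
      rw [← hpe, ht e' he']
      exact hcap e'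
  have hA : ∀ r ∈ {r : ℝ | ∃ E : Finset (Sym2 Vert), IsCut n H E ∧ r = ∑ e ∈ E, t e}, 0 ≤ r := by
    rintro r ⟨E, hE, rfl⟩
    exact Finset.sum_nonneg (htE E hE)
  have hB : ∀ r ∈ {r : ℝ | ∃ S : Set V, adm (sq (n + 1) (n + 1)) 0 (H : ℤ) S ∧ True ∧
      r = en a b T (sq (n + 1) (n + 1)) 0 (H : ℤ) S}, 0 ≤ r := by
    rintro r ⟨S, _, _, rfl⟩
    exact Finset.sum_nonneg fun e _ => hcap e
  have hne : ∃ S : Set V, adm (sq (n + 1) (n + 1)) 0 (H : ℤ) S := by
    refine ⟨{v | v.2.2 ≤ 0}, fun v _ => ⟨fun h => h, fun h h' => ?_⟩⟩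
    have : (0 : ℤ) < H := by exact_mod_cast hH
    simp only [Set.mem_ofPred_eq] at h'
    omega
  apply le_antisymm
  · unfold flow flowC
    obtain ⟨S0, hS0⟩ := hne
    refine le_csInf ⟨_, S0, hS0, trivial, rfl⟩ ?_
    rintro r ⟨S, hS, _, rfl⟩
    rw [← hsum S]
    exact csInf_le ⟨0, hA⟩ ⟨_, isCut_of_adm n H S hS, rfl⟩
  · unfold maxFlow
    obtain ⟨S0, hS0⟩ := hne
    refine le_csInf ⟨_, _, isCut_of_adm n H S0 hS0, rfl⟩ ?_
    rintro r ⟨E, hE, rfl⟩
    obtain ⟨S, hS, hSE⟩ := adm_of_isCut n H hH E hE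
    refine le_trans (csInf_le ⟨0, hB⟩ ⟨S, hS, trivial, rfl⟩) ?_
    rw [← hsum S]
    exact Finset.sum_le_sum_of_subset_of_nonneg hSE fun e he _ => htE E hE e he

section Law
variable {Ω : Type*} [MeasurableSpace Ω] {P : Measure Ω} [IsProbabilityMeasure P]
  {t : Sym2 Vert → Ω → ℝ}

open Classical in
/-- the random set of edges of capacity `b` -/
noncomputable def Tset (t : Sym2 Vert → Ω → ℝ) (b : ℝ) (F : Finset Ed) (ω : Ω) : Finset Ed :=
  F.filter (fun e => t (psi e) ω = b)

theorem Tset_eq (b : ℝ) (F s : Finset Ed) (hs : s ⊆ F) :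
    {ω | Tset t b F ω = s} =
      ⋂ i ∈ F.image psi, t i ⁻¹' (if i ∈ s.image psi then {b} else {b}ᶜ) := by
  ext ω
  simp only [Set.mem_ofPred_eq, Set.mem_iInter, Set.mem_preimage, Finset.mem_image]
  constructor
  · intro h i hi
    obtain ⟨e, he, rfl⟩ := hi
    split_ifs with hc
    · obtain ⟨e', he', h'⟩ := hc
      have := psi_inj h'
      subst this
      rw [← h] at he'
      exact (Finset.mem_filter.1 he').2
    · intro hb
      apply hc
      refine ⟨e, ?_, rfl⟩
      rw [← h]
      exact Finset.mem_filter.2 ⟨he, hb⟩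
  · intro h
    ext e
    constructor
    · intro he
      obtain ⟨h1, h2⟩ := Finset.mem_filter.1 he
      by_contra hc
      have := h (psi e) ⟨e, h1, rfl⟩
      rw [if_neg] at this
      · exact this h2
      · rintro ⟨e', he', h'⟩
        have := psi_inj h'
        subst this
        exact hc he'
    · intro he
      refine Finset.mem_filter.2 ⟨hs he, ?_⟩
      have := h (psi e) ⟨e, hs he, rfl⟩
      rw [if_pos ⟨e, he, rfl⟩] at this
      exact this

theorem Tset_meas (ht : ∀ e, Measurable (t e)) (b : ℝ) (F s : Finset Ed) (hs : s ⊆ F) :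
    MeasurableSet {ω | Tset t b F ω = s} := by
  rw [Tset_eq b F s hs]
  refine Finset.measurableSet_biInter _ fun i _ => ?_
  apply ht i
  split_ifs
  · exact measurableSet_singleton b
  · exact (measurableSet_singleton b).compl

theorem Tset_law (p a b : ℝ) (hp0 : 0 < p) (hp1 : p < 1) (ht : ∀ e, Measurable (t e))
    (hind : iIndepFun t P)
    (hP : ∀ e, P {ω | t e ω = b} = ENNReal.ofReal p ∧ P {ω | t e ω = a} = ENNReal.ofReal (1 - p))
    (F s : Finset Ed) (hs : s ⊆ F) :
    P.real {ω | Tset t b F ω = s} = p ^ s.card * (1 - p) ^ (F.card - s.card) := by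
  classical
  rw [Measure.real, Tset_eq b F s hs, hind.measure_inter_preimage_eq_mul]
  · rw [Finset.prod_image (fun x _ y _ h => psi_inj h), ENNReal.toReal_prod]
    have h1 : ∀ e ∈ F, (P (t (psi e) ⁻¹' (if psi e ∈ s.image psi then {b} else {b}ᶜ))).toReal
        = if e ∈ s then p else 1 - p := by
      intro e _
      have hm : psi e ∈ s.image psi ↔ e ∈ s := by
        rw [Finset.mem_image]
        constructor
        · rintro ⟨e', he', h'⟩
          rw [← psi_inj h']; exact he'
        · intro h; exact ⟨e, h, rfl⟩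
      have hb : (P (t (psi e) ⁻¹' {b})).toReal = p := by
        have : t (psi e) ⁻¹' {b} = {ω | t (psi e) ω = b} := rfl
        rw [this, (hP (psi e)).1, ENNReal.toReal_ofReal hp0.le]
      by_cases he : e ∈ s
      · rw [if_pos (hm.2 he), if_pos he, hb]
      · rw [if_neg (fun h => he (hm.1 h)), if_neg he, Set.preimage_compl]
        have := measureReal_compl (μ := P) ((ht (psi e)) (measurableSet_singleton b))
        rw [Measure.real, Measure.real, Measure.real] at this
        rw [this, hb]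
        simp
    rw [Finset.prod_congr rfl h1, Finset.prod_ite, Finset.prod_const, Finset.prod_const]
    have h2 : F.filter (fun e => e ∈ s) = s := by
      ext e; simp only [Finset.mem_filter]; exact ⟨fun h => h.2, fun h => ⟨hs h, h⟩⟩
    have h3 : (F.filter (fun e => e ∉ s)).card = F.card - s.card := by
      rw [← Finset.card_sdiff_of_subset hs]
      congr 1
      ext e; simp only [Finset.mem_filter, Finset.mem_sdiff]
    rw [h2, h3]
  · intro i _
    split_ifs
    · exact measurableSet_singleton b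
    · exact (measurableSet_singleton b).compl

theorem Tset_sub (b : ℝ) (F : Finset Ed) (ω : Ω) : Tset t b F ω ⊆ F := Finset.filter_subset _ _

/-- expectation of a function of the random set -/
theorem integral_Tset (p a b : ℝ) (hp0 : 0 < p) (hp1 : p < 1) (ht : ∀ e, Measurable (t e))
    (hind : iIndepFun t P)
    (hP : ∀ e, P {ω | t e ω = b} = ENNReal.ofReal p ∧ P {ω | t e ω = a} = ENNReal.ofReal (1 - p))
    (F : Finset Ed) (f : Finset Ed → ℝ) :
    ∫ ω, f (Tset t b F ω) ∂P = ex p F f := by
  classical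
  have h1 : (fun ω => f (Tset t b F ω)) = fun ω => ∑ s ∈ F.powerset,
      ({ω | Tset t b F ω = s}).indicator (fun _ => f s) ω := by
    funext ω
    rw [Finset.sum_eq_single (Tset t b F ω)]
    · rw [Set.indicator_of_mem]; rfl
    · intro s _ hs
      rw [Set.indicator_of_notMem]
      intro h; exact hs h.symm
    · intro h
      exact absurd (Finset.mem_powerset.2 (Tset_sub b F ω)) h
  rw [h1, integral_finsetSum]
  · unfold ex
    refine Finset.sum_congr rfl fun s hs => ?_
    have hs' := Finset.mem_powerset.1 hs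
    rw [integral_indicator_const _ (Tset_meas ht b F s hs'),
      Tset_law p a b hp0 hp1 ht hind hP F s hs', smul_eq_mul]
  · intro s hs
    exact (integrable_const (f s)).indicator (Tset_meas ht b F s (Finset.mem_powerset.1 hs))

theorem measurable_Tset (ht : ∀ e, Measurable (t e)) (b : ℝ) (F : Finset Ed)
    (f : Finset Ed → ℝ) : Measurable (fun ω => f (Tset t b F ω)) := by
  classical
  have h1 : (fun ω => f (Tset t b F ω)) = fun ω => ∑ s ∈ F.powerset,
      ({ω | Tset t b F ω = s}).indicator (fun _ => f s) ω := by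
    funext ω
    rw [Finset.sum_eq_single (Tset t b F ω)]
    · rw [Set.indicator_of_mem]; rfl
    · intro s _ hs
      rw [Set.indicator_of_notMem]
      intro h; exact hs h.symm
    · intro h
      exact absurd (Finset.mem_powerset.2 (Tset_sub b F ω)) h
  rw [h1]
  refine Finset.measurable_fun_sum _ fun s hs => ?_
  exact measurable_const.indicator (Tset_meas ht b F s (Finset.mem_powerset.1 hs))

end Law

end FinP

open FinP in
/-- almost surely all capacities are `a` or `b` -/
theorem FinP.ae_ab {Ω : Type*} [MeasurableSpace Ω] {P : Measure Ω} [IsProbabilityMeasure P]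
    {t : Sym2 Vert → Ω → ℝ} (p a b : ℝ) (hab : a < b) (hp0 : 0 ≤ p) (hp1 : p ≤ 1)
    (ht : ∀ e, Measurable (t e))
    (hP : ∀ e, P {ω | t e ω = b} = ENNReal.ofReal p ∧ P {ω | t e ω = a} = ENNReal.ofReal (1 - p))
    (F : Finset Ed) :
    ∀ᵐ ω ∂P, ∀ e ∈ F, t (psi e) ω = a ∨ t (psi e) ω = b := by
  have hae : ∀ e : Sym2 Vert, ∀ᵐ ω ∂P, t e ω = a ∨ t e ω = b := by
    intro e
    have hmb : MeasurableSet {ω | t e ω = b} := ht e (measurableSet_singleton b)
    have hma : MeasurableSet {ω | t e ω = a} := ht e (measurableSet_singleton a)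
    have hdis : Disjoint {ω | t e ω = a} {ω | t e ω = b} := by
      rw [Set.disjoint_left]
      intro ω h1 h2
      simp only [Set.mem_ofPred_eq] at h1 h2
      rw [h1] at h2
      exact absurd h2 hab.ne
    have h1 : P ({ω | t e ω = a} ∪ {ω | t e ω = b}) = 1 := by
      rw [measure_union hdis hmb, (hP e).1, (hP e).2,
        ← ENNReal.ofReal_add (by linarith) hp0]
      simp
    have h2 : ∀ᵐ ω ∂P, ω ∈ {ω | t e ω = a} ∪ {ω | t e ω = b} := by
      rw [← prob_compl_eq_zero_iff (hma.union hmb)] at h1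
      exact h1
    filter_upwards [h2] with ω hω
    exact hω
  exact (ae_ball_iff (Finset.countable_toSet F)).2 (fun e _ => hae (psi e))

open FinP in
theorem fin_thm (hmai : S_MAI) : S_FIN := by
  classical
  intro a b p ha hab hp0 hp1 ε c hε hc
  have hH0' : ∀ n H : ℕ, 2 ≤ n → c * (n : ℝ) ^ ε ≤ H → 0 < H := by
    intro n H hn hH
    rcases Nat.eq_zero_or_pos H with h | h
    · exfalso
      rw [h] at hH
      have hn0 : (0 : ℝ) < n := by
        have : 0 < n := by omega
        exact_mod_cast this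
      have : 0 < c * (n : ℝ) ^ ε := mul_pos hc (Real.rpow_pos_of_pos hn0 ε)
      simp only [Nat.cast_zero] at hH
      linarith
    · exact h
  by_cases hp : 0 < p ∧ p < 1
  · obtain ⟨hp0, hp1⟩ := hp
    obtain ⟨C, hC⟩ := hmai p a b ε c hp0 hp1 ha hab hε hc
    refine ⟨C, ?_⟩
    intro Ω _ P _ t ht hind hP n H hn hH
    have hH0 : 0 < H := hH0' n H hn hH
    set F := eds (sq (n + 1) (n + 1)) 0 (H : ℤ) with hF
    have heq : (fun ω => maxFlow n H (fun e => t e ω)) =ᵐ[P]
        fun ω => flow a b (sq (n + 1) (n + 1)) 0 (H : ℤ) (Tset t b F ω) := by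
      filter_upwards [ae_ab p a b hab hp0.le hp1.le ht hP F] with ω hω
      refine maxFlow_eq a b ha hab n H hH0 _ _ ?_
      intro e he
      unfold cap
      by_cases h : t (psi e) ω = b
      · have hm : e ∈ Tset t b F ω := Finset.mem_filter.2 ⟨he, h⟩
        rw [if_pos hm]; exact h
      · have hm : e ∉ Tset t b F ω := fun h' => h (Finset.mem_filter.1 h').2
        rw [if_neg hm]
        rcases hω e he with h' | h'
        · exact h'
        · exact absurd h' h
    rw [variance_congr heq, variance_eq_integral (measurable_Tset ht b F _).aemeasurable,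
      integral_Tset p a b hp0 hp1 ht hind hP F,
      integral_Tset p a b hp0 hp1 ht hind hP F
        (fun s => (flow a b (sq (n + 1) (n + 1)) 0 (H : ℤ) s
          - ex p F (flow a b (sq (n + 1) (n + 1)) 0 (H : ℤ))) ^ 2)]
    exact hC n H hn hH
  · -- degenerate laws
    refine ⟨0, ?_⟩
    intro Ω _ P _ t ht hind hP n H hn hH
    have hH0 : 0 < H := hH0' n H hn hH
    have hp' : p = 0 ∨ p = 1 := by
      rcases hp0.lt_or_eq with h | h
      · rcases hp1.lt_or_eq with h' | h'
        · exact absurd ⟨h, h'⟩ hp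
        · right; exact h'
      · left; exact h.symm
    have hconst : ∃ T : Finset Ed, (fun ω => maxFlow n H (fun e => t e ω)) =ᵐ[P]
        fun _ => flow a b (sq (n + 1) (n + 1)) 0 (H : ℤ) T := by
      rcases hp' with rfl | rfl
      · refine ⟨∅, ?_⟩
        have h1 : ∀ᵐ ω ∂P, ∀ e ∈ eds (sq (n + 1) (n + 1)) 0 (H : ℤ), ¬ t (psi e) ω = b := by
          refine (ae_ball_iff (Finset.countable_toSet _)).2 (fun e _ => ?_)
          have := (hP (psi e)).1
          rw [ENNReal.ofReal_zero] at this
          exact measure_eq_zero_iff_ae_notMem.1 this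
        filter_upwards [h1, ae_ab 0 a b hab hp0 hp1 ht hP (eds (sq (n + 1) (n + 1)) 0 (H : ℤ))]
          with ω hω hω'
        refine maxFlow_eq a b ha hab n H hH0 _ _ ?_
        intro e he
        unfold cap
        rw [if_neg (Finset.notMem_empty e)]
        rcases hω' e he with h | h
        · exact h
        · exact absurd h (hω e he)
      · refine ⟨eds (sq (n + 1) (n + 1)) 0 (H : ℤ), ?_⟩
        have h1 : ∀ᵐ ω ∂P, ∀ e ∈ eds (sq (n + 1) (n + 1)) 0 (H : ℤ), ¬ t (psi e) ω = a := by
          refine (ae_ball_iff (Finset.countable_toSet _)).2 (fun e _ => ?_)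
          have := (hP (psi e)).2
          rw [sub_self, ENNReal.ofReal_zero] at this
          exact measure_eq_zero_iff_ae_notMem.1 this
        filter_upwards [h1, ae_ab 1 a b hab hp0 hp1 ht hP (eds (sq (n + 1) (n + 1)) 0 (H : ℤ))]
          with ω hω hω'
        refine maxFlow_eq a b ha hab n H hH0 _ _ ?_
        intro e he
        unfold cap
        rw [if_pos he]
        rcases hω' e he with h | h
        · exact absurd h (hω e he)
        · exact h
    obtain ⟨T, hT⟩ := hconst
    rw [variance_congr hT, variance_eq_integral aemeasurable_const]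
    simp

end Pool.SC
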