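import Pool.Agent.H61.SC.Defs

/-!
# The problem form of the theorem (MP_dbd530, d = 3)
-/

namespace Pool.SC

open MeasureTheory ProbabilityTheory

/-- vertices of `Z^3` -/
abbrev Vert := Fin 3 → ℤ

/-- the cylinder `[0,n]^2 x [0,H]` -/
def Cyl (n H : ℕ) : Set Vert :=
  {v | (0 ≤ v 0 ∧ v 0 ≤ n) ∧ (0 ≤ v 1 ∧ v 1 ≤ n) ∧ (0 ≤ v 2 ∧ v 2 ≤ H)}

/-- the nearest neighbour graph of `Z^3` -/
def latt : SimpleGraph Vert where
  Adj u v := ∑ i, |u i - v i| = 1
  symm := by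
    constructor
    intro u v h
    have : ∀ i, |v i - u i| = |u i - v i| := fun i => abs_sub_comm _ _
    simpa only [this] using h
  loopless := by
    constructor
    intro u h
    simp at h

/-- `E` is a cut-set of the cylinder: a finite set of edges with both endpoints in the cylinder
which meets every lattice path inside the cylinder from the bottom face to the top face -/
def IsCut (n H : ℕ) (E : Finset (Sym2 Vert)) : Prop :=
  (∀ e ∈ E, e ∈ latt.edgeSet ∧ ∀ v ∈ e, v ∈ Cyl n H) ∧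
  ∀ (u v : Vert) (w : latt.Walk u v), u 2 = 0 → v 2 = H → (∀ x ∈ w.support, x ∈ Cyl n H) →
    ∃ e ∈ w.edges, e ∈ E

/-- the maximal flow through the cylinder (minimal capacity of a cut-set) -/
noncomputable def maxFlow (n H : ℕ) (t : Sym2 Vert → ℝ) : ℝ :=
  sInf {r : ℝ | ∃ E : Finset (Sym2 Vert), IsCut n H E ∧ r = ∑ e ∈ E, t e}

/-- the statement of the hand-in -/
def S_FIN : Prop := ∀ (a b p : ℝ), 0 < a → a < b → 0 ≤ p → p ≤ 1 →
  ∀ (ε c : ℝ), 3 / 5 < ε → 0 < c →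
  ∃ C : ℝ, ∀ (Ω : Type*) [MeasurableSpace Ω] (P : Measure Ω) [IsProbabilityMeasure P]
    (t : Sym2 Vert → Ω → ℝ), (∀ e, Measurable (t e)) → iIndepFun t P →
    (∀ e, P {ω | t e ω = b} = ENNReal.ofReal p ∧ P {ω | t e ω = a} = ENNReal.ofReal (1 - p)) →
    ∀ n H : ℕ, 2 ≤ n → c * (n : ℝ) ^ ε ≤ H →
      variance (fun ω => maxFlow n H (fun e => t e ω)) P ≤ C * ((n : ℝ) ^ 2 / Real.log n)

end Pool.SC
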